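import Pool.Agent.Y843.CH.Ser

/-!
# Chen's theorem in arithmetic progressions of representations, for every large even number

Let `C n` be the set of the primes `p < 2 n`, `p ≠ n`, such that `2 n - p` is a prime or a product of two
primes, all the primes being larger than `(2 n) ^ (1/9)`. For EVERY large `n` this set has the expected
order of magnitude (Chen), and in every subset of it all but few elements lie in progressions of `k`
elements of the subset with a difference at most a power of `log (2 n)`. The same holds for the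
subset `D t n a` of the primes for which also the numbers `a 1 - p, …, a s - p` are free of prime factors
`≤ (2 n) ^ (1/t)`, `t = t(s)`, for ANY integers `a 1, …, a s` without local obstruction.

Proof: Chen's theorem with all its inputs (the linear sieve, the switching principle, the theorem of
Bombieri and Vinogradov for primes and for products of three primes) is proved in `Pool.Agent.Y843.CH`
inside arbitrary sifted sets; the progressions come from Szemerédi's theorem relative to arbitrary sifted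
sets (`Pool.Agent.Y843.HS`).
-/

set_option autoImplicit false

namespace Pool.Agent.Results.MP_7b7e48_nt.ChenProgressions

open Finset Filter

open Classical in
/-- The primes `p ≠ n`, `(2 n) ^ (1/9) < p < 2 n`, such that `2 n - p` is a prime or a product of two primes
(counted with multiplicity) and has only prime factors larger than `(2 n) ^ (1/9)`. -/
noncomputable def C (n : ℕ) : Finset ℕ :=
  (range (2 * n)).filter (fun p => p.Prime ∧ p ≠ n ∧ ((2 * n : ℕ) : ℝ) ^ (1 / 9 : ℝ) < p ∧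
    ((2 * n - p).primeFactorsList.length = 1 ∨ (2 * n - p).primeFactorsList.length = 2) ∧
    ∀ q : ℕ, q.Prime → q ∣ 2 * n - p → ((2 * n : ℕ) : ℝ) ^ (1 / 9 : ℝ) < q)

/-- No local obstruction: for every prime `q` there is a `u` such that `q` divides neither `u` nor
`2 n - u` nor any `a j - u`. -/
def Possible {s : ℕ} (n : ℕ) (a : Fin s → ℤ) : Prop :=
  ∀ q : ℕ, q.Prime → ∃ u : ℕ, ¬ q ∣ u ∧ ¬ (q : ℤ) ∣ 2 * (n : ℤ) - u ∧ ∀ j, ¬ (q : ℤ) ∣ a j - u

open Classical in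
/-- The residues `0`, `2 n` and `a j`, `j = 1, …, s`, modulo `q`. -/
noncomputable def classes {s : ℕ} (n : ℕ) (a : Fin s → ℤ) (q : ℕ) : Finset ℕ :=
  (range q).filter (fun c => c = 0 ∨ (q : ℤ) ∣ 2 * (n : ℤ) - c ∨ ∃ j, (q : ℤ) ∣ a j - c)

/-- The proportion of the integers `u` such that no prime `q ≤ y` divides `u`, `2 n - u` or any `a j - u`. -/
noncomputable def density {s : ℕ} (n : ℕ) (a : Fin s → ℤ) (y : ℕ) : ℝ :=
  ∏ q ∈ (Ioc 0 y).filter Nat.Prime, (1 - ((classes n a q).card : ℝ) / q)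

open Classical in
/-- The `p ∈ C n` such that no prime `q ≤ (2 n) ^ (1/t)` divides any `a j - p`. -/
noncomputable def D {s : ℕ} (t n : ℕ) (a : Fin s → ℤ) : Finset ℕ :=
  (C n).filter (fun p => ∀ q : ℕ, q.Prime → (q : ℝ) ≤ ((2 * n : ℕ) : ℝ) ^ (1 / (t : ℝ)) →
    ∀ j, ¬ (q : ℤ) ∣ a j - p)

/-- `p` is a term of a progression of `k` elements of `S` with a difference in `[1, H]`. -/
def InAP (k : ℕ) (H : ℝ) (S : Finset ℕ) (p : ℕ) : Prop :=
  ∃ b d : ℕ, 1 ≤ d ∧ (d : ℝ) ≤ H ∧ (∀ j < k, b + j * d ∈ S) ∧ ∃ j < k, p = b + j * d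

open Classical in
/-- The elements of `S` outside of these progressions. -/
noncomputable def outside (k : ℕ) (H : ℝ) (S : Finset ℕ) : Finset ℕ := S.filter (fun p => ¬ InAP k H S p)

theorem natAbs_sub {n p : ℕ} (hp : p ≤ 2 * n) : (((2 * n : ℕ) : ℤ) - p).natAbs = 2 * n - p := by
  omega

theorem D_eq {s : ℕ} (t n : ℕ) (a : Fin s → ℤ) :
    D t n a = Pool.Agent.Y843.CH.GV t (2 * n) ((2 * n : ℕ) : ℤ) a := by
  classical
  ext p
  unfold D C Pool.Agent.Y843.CH.GV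
  rw [mem_filter, mem_filter, mem_filter, mem_range, mem_Ioc]
  constructor
  · rintro ⟨⟨h1, h2, h3, h4, h5, h6⟩, h7⟩
    rw [natAbs_sub h1.le]
    refine ⟨⟨h2.pos, h1.le⟩, h2, h4, ?_, by omega, by omega, h6, h7⟩
    omega
  · rintro ⟨⟨h1, h2⟩, h3, h4, h5, h6, h7, h8, h9⟩
    rw [natAbs_sub h2] at h6 h7 h8
    refine ⟨⟨?_, h3, ?_, h4, by omega, h8⟩, h9⟩
    · rcases lt_or_eq_of_le h2 with h10 | h10
      · exact h10
      · rw [h10] at h6
        simp at h6
    · omega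

theorem C_eq (t n : ℕ) (a : Fin 0 → ℤ) : D t n a = C n := by
  classical
  unfold D
  rw [filter_eq_self]
  intro p _ q _ _ j
  exact j.elim0

theorem possible_iff {s : ℕ} (n : ℕ) (a : Fin s → ℤ) :
    Possible n a ↔ Pool.Agent.Y843.CH.Psb ((2 * n : ℕ) : ℤ) a := by
  unfold Possible Pool.Agent.Y843.CH.Psb
  push_cast
  rfl

theorem density_eq {s : ℕ} (n : ℕ) (a : Fin s → ℤ) (y : ℕ) :
    density n a y = Pool.Agent.Y843.HS.VV (Pool.Agent.Y843.CH.vcls ((2 * n : ℕ) : ℤ) a) 0 y := by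
  unfold density Pool.Agent.Y843.HS.VV classes Pool.Agent.Y843.CH.vcls Pool.Agent.Y843.HS.Pr
  push_cast
  rfl

/-- For all large `n` (everything is uniform in `n`, and in the integers `a j` of the second part):

1. `#(C n) ≥ c (2 n)² / (φ(2 n) log² (2 n))`;
2. in every `S ⊆ C n` all the elements but `ε #(C n)` lie in progressions of `k` elements of `S` with a
  difference at most `log ^ B (2 n)`, `B = B(k, ε)`;
3. in every colouring of the integers with `r` colours `C n` contains progressions of `k` terms of one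
  colour with a difference at most `log ^ B (2 n)`, `B = B(k, r)`;
4. for every `s` there is a `t` such that for ALL integers `a 1, …, a s` without local obstruction
  `#(D t n a) ≥ c · 2 n ∏ (1 - ρ(q)/q)`, the product over the primes `q ≤ (2 n) ^ (1/t)`, and (2), (3) hold
  for `D t n a` in place of `C n`; every `a j - p`, `p ∈ D t n a`, is nonzero and is a product of fewer than
  `m t` primes if `|a j - p| < (2 n) ^ m` (for `2 n ≥ 2 ^ t`). -/
theorem result :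
    (∃ c : ℝ, 0 < c ∧ ∀ᶠ n : ℕ in atTop,
      c * (((2 * n : ℕ) : ℝ) ^ 2 / ((2 * n).totient * Real.log (2 * n : ℕ) ^ 2)) ≤ ((C n).card : ℝ)) ∧
    (∀ (k : ℕ) (ε : ℝ), 1 ≤ k → 0 < ε → ∃ B : ℕ, ∀ᶠ n : ℕ in atTop, ∀ S : Finset ℕ, S ⊆ C n →
      ((outside k (Real.log (2 * n : ℕ) ^ B) S).card : ℝ) ≤ ε * (C n).card) ∧
    (∀ k r : ℕ, ∃ B : ℕ, ∀ᶠ n : ℕ in atTop, ∀ χ : ℕ → Fin r, ∃ b d : ℕ,
      1 ≤ d ∧ (d : ℝ) ≤ Real.log (2 * n : ℕ) ^ B ∧ ∀ i < k, b + i * d ∈ C n ∧ χ (b + i * d) = χ b) ∧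
    (∀ s : ℕ, ∃ t : ℕ, 9 ≤ t ∧
      (∃ c : ℝ, 0 < c ∧ ∀ᶠ n : ℕ in atTop, ∀ a : Fin s → ℤ, Possible n a →
        c * (2 * n : ℕ) * density n a ⌊((2 * n : ℕ) : ℝ) ^ (1 / (t : ℝ))⌋₊ ≤ ((D t n a).card : ℝ)) ∧
      (∀ (k : ℕ) (ε : ℝ), 1 ≤ k → 0 < ε → ∃ B : ℕ, ∀ᶠ n : ℕ in atTop, ∀ a : Fin s → ℤ, Possible n a →
        ∀ S : Finset ℕ, S ⊆ D t n a →
          ((outside k (Real.log (2 * n : ℕ) ^ B) S).card : ℝ) ≤ ε * (D t n a).card) ∧
      (∀ k r : ℕ, ∃ B : ℕ, ∀ᶠ n : ℕ in atTop, ∀ a : Fin s → ℤ, Possible n a → ∀ χ : ℕ → Fin r,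
        ∃ b d : ℕ, 1 ≤ d ∧ (d : ℝ) ≤ Real.log (2 * n : ℕ) ^ B ∧
          ∀ i < k, b + i * d ∈ D t n a ∧ χ (b + i * d) = χ b) ∧
      (∀ n : ℕ, 2 ^ t ≤ 2 * n → ∀ a : Fin s → ℤ, ∀ p ∈ D t n a, ∀ j, a j ≠ p ∧
        ∀ m : ℕ, 1 ≤ m → (a j - p).natAbs < (2 * n) ^ m →
          (a j - p).natAbs.primeFactorsList.length < m * t)) := by
  classical
  -- the general part
  have hgen : ∀ s : ℕ, ∃ t : ℕ, 9 ≤ t ∧
      (∃ c : ℝ, 0 < c ∧ ∀ᶠ n : ℕ in atTop, ∀ a : Fin s → ℤ, Possible n a →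
        c * (2 * n : ℕ) * density n a ⌊((2 * n : ℕ) : ℝ) ^ (1 / (t : ℝ))⌋₊ ≤ ((D t n a).card : ℝ)) ∧
      (∀ (k : ℕ) (ε : ℝ), 1 ≤ k → 0 < ε → ∃ B : ℕ, ∀ᶠ n : ℕ in atTop, ∀ a : Fin s → ℤ, Possible n a →
        ∀ S : Finset ℕ, S ⊆ D t n a →
          ((outside k (Real.log (2 * n : ℕ) ^ B) S).card : ℝ) ≤ ε * (D t n a).card) ∧
      (∀ k r : ℕ, ∃ B : ℕ, ∀ᶠ n : ℕ in atTop, ∀ a : Fin s → ℤ, Possible n a → ∀ χ : ℕ → Fin r,
        ∃ b d : ℕ, 1 ≤ d ∧ (d : ℝ) ≤ Real.log (2 * n : ℕ) ^ B ∧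
          ∀ i < k, b + i * d ∈ D t n a ∧ χ (b + i * d) = χ b) := by
    intro s
    obtain ⟨t, ht, ⟨c, hc, X₀, h1⟩, h2, h3⟩ := Pool.Agent.Y843.CH.gv s
    have hcount : ∀ᶠ n : ℕ in atTop, ∀ a : Fin s → ℤ, Possible n a →
        c * (2 * n : ℕ) * density n a ⌊((2 * n : ℕ) : ℝ) ^ (1 / (t : ℝ))⌋₊ ≤ ((D t n a).card : ℝ) := by
      filter_upwards [eventually_ge_atTop (X₀ + 1)] with n hn a ha
      rw [D_eq, density_eq]
      exact h1 (2 * n) (by omega) _ (by omega) (by omega) a ((possible_iff n a).1 ha)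
    refine ⟨t, ht, ⟨c, hc, hcount⟩, ?_, ?_⟩
    · intro k ε hk hε
      obtain ⟨B, X₁, h4⟩ := h2 k t (ε * c) hk ht (by positivity)
      refine ⟨B, ?_⟩
      filter_upwards [eventually_ge_atTop (X₁ + 1), hcount] with n hn hcn a ha S hS
      have h5 := h4 (2 * n) (by omega) _ a ((possible_iff n a).1 ha) S (by rw [← D_eq]; exact hS)
      rw [← density_eq] at h5
      have h6 := hcn a ha
      calc ((outside k (Real.log (2 * n : ℕ) ^ B) S).card : ℝ)
          ≤ ε * c * (2 * n : ℕ) * density n a ⌊((2 * n : ℕ) : ℝ) ^ (1 / (t : ℝ))⌋₊ := h5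
        _ = ε * (c * (2 * n : ℕ) * density n a ⌊((2 * n : ℕ) : ℝ) ^ (1 / (t : ℝ))⌋₊) := by ring
        _ ≤ ε * (D t n a).card := mul_le_mul_of_nonneg_left h6 hε.le
    · intro k r
      obtain ⟨B, X₁, h4⟩ := h3 k r
      refine ⟨B, ?_⟩
      filter_upwards [eventually_ge_atTop (X₁ + 1)] with n hn a ha χ
      rw [D_eq]
      exact h4 (2 * n) (by omega) _ (by omega) (by omega) a ((possible_iff n a).1 ha) χ
  have hP0 : ∀ (n : ℕ) (a : Fin 0 → ℤ), Possible n a := by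
    intro n a
    rw [possible_iff]
    exact Pool.Agent.Y843.CH.Psb0 _ (by exact_mod_cast even_two_mul n) a
  obtain ⟨t, ht, ⟨c, hc, h1⟩, h2, h3⟩ := hgen 0
  obtain ⟨c', hc', X₁, h4⟩ := Pool.Agent.Y843.CH.V_even t (by omega)
  refine ⟨⟨c * c', by positivity, ?_⟩, ?_, ?_, ?_⟩
  · filter_upwards [h1, eventually_ge_atTop (X₁ + 1)] with n hn hnX
    have h5 := hn Fin.elim0 (hP0 n _)
    rw [C_eq] at h5
    refine le_trans ?_ h5
    rw [density_eq]
    have h6 := h4 (2 * n) (by omega) ((2 * n : ℕ) : ℤ) (by omega) (by exact_mod_cast even_two_mul n)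
      (by omega) Fin.elim0
    rw [Int.natAbs_natCast] at h6
    calc c * c' * (((2 * n : ℕ) : ℝ) ^ 2 / ((2 * n).totient * Real.log (2 * n : ℕ) ^ 2))
        = c * (2 * n : ℕ) * (c' * (((2 * n : ℕ) : ℝ) / ((2 * n).totient * Real.log (2 * n : ℕ) ^ 2))) := by
          ring
      _ ≤ _ := mul_le_mul_of_nonneg_left h6 (by positivity)
  · intro k ε hk hε
    obtain ⟨B, h5⟩ := h2 k ε hk hε
    refine ⟨B, ?_⟩
    filter_upwards [h5] with n hn S hS
    have h6 := hn Fin.elim0 (hP0 n _) S (by rw [C_eq]; exact hS)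
    rwa [C_eq] at h6
  · intro k r
    obtain ⟨B, h5⟩ := h3 k r
    refine ⟨B, ?_⟩
    filter_upwards [h5] with n hn χ
    have h6 := hn Fin.elim0 (hP0 n _) χ
    rwa [C_eq] at h6
  · intro s
    obtain ⟨t, ht, h5, h6, h7⟩ := hgen s
    refine ⟨t, ht, h5, h6, h7, ?_⟩
    intro n hn a p hp j
    unfold D at hp
    rw [mem_filter] at hp
    have ht0 : (0 : ℝ) < t := by exact_mod_cast (show 0 < t by omega)
    have h2t : 0 < 2 ^ t := Nat.pow_pos (by norm_num)
    have hn0 : (0 : ℝ) < ((2 * n : ℕ) : ℝ) := by exact_mod_cast (show 0 < 2 * n by omega)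
    have hav : ∀ q : ℕ, q.Prime → q ∣ (a j - p).natAbs → ((2 * n : ℕ) : ℝ) ^ (1 / (t : ℝ)) < q := by
      intro q hq hqd
      by_contra hcon
      rw [not_lt] at hcon
      exact hp.2 q hq hcon j (Int.natCast_dvd.2 hqd)
    have h2 : ((2 : ℕ) : ℝ) ≤ ((2 * n : ℕ) : ℝ) ^ (1 / (t : ℝ)) := by
      have h8 : ((2 : ℝ) ^ t) ≤ ((2 * n : ℕ) : ℝ) := by exact_mod_cast hn
      calc ((2 : ℕ) : ℝ) = ((2 : ℝ) ^ t) ^ (1 / (t : ℝ)) := by
            rw [← Real.rpow_natCast, ← Real.rpow_mul (by norm_num), mul_one_div, div_self ht0.ne',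
              Real.rpow_one]
            norm_num
        _ ≤ _ := Real.rpow_le_rpow (by positivity) h8 (by positivity)
    have h0 : (a j - p).natAbs ≠ 0 := by
      intro h0
      have h8 := hav 2 Nat.prime_two (by rw [h0]; exact dvd_zero _)
      linarith
    refine ⟨by omega, ?_⟩
    intro m hm hlt
    have hm0 : (0 : ℝ) < m := by exact_mod_cast hm
    have hpow : ((((2 * n : ℕ) : ℝ) ^ m) ^ (1 / ((m * t : ℕ) : ℝ))) = ((2 * n : ℕ) : ℝ) ^ (1 / (t : ℝ)) := by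
      rw [← Real.rpow_natCast, ← Real.rpow_mul hn0.le]
      congr 1
      push_cast
      field_simp
    apply Pool.Agent.Y843.HG.length_le _ (m * t) (((2 * n : ℕ) : ℝ) ^ m) (by positivity) h0 _ _
      (Nat.mul_pos (by omega) (by omega))
    · exact_mod_cast hlt
    · rw [hpow]
      exact hav

end Pool.Agent.Results.MP_7b7e48_nt.ChenProgressions
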