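import Pool.Agent.Y820.LF.Fin

/-!
# Goldbach's conjecture with a common prime for several numbers, after a bounded number of changes of digits

Every vector `n 1, ..., n s` of integers up to `B X` without a local obstruction (for `s = 1`: `n` is even) can be
turned, by changing at most `K` digits (in base `b`) of each `n i`, into a vector `a 1, ..., a s` such that the
primes `p` for which ALL the numbers `a 1 - p, ..., a s - p` are primes have the density predicted by Hardy and
Littlewood, up to a relative error of `ε`, among the primes up to `N`, for all `N` between `X / m` and `X` with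
`N < a i`. So the `a i` are sums of two primes with a common first summand `p` which can be taken from an initial
segment (for `2 N < a i` the two primes are different). The positions of the digits are the same for all
vectors of an arbitrary family, up to a proportion `ρ` of its members. For `s = 1` this is close to results in
the starting files.

Method: the average over random sets of exponents in windows of the digits of a correlation sum of `s` linear
forms, a second moment for each factor of the product by the inequality of Cauchy and Schwarz for Gram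
matrices, Vaughan's identity and the sieve. Libraries: W93, TH892, TH894, H373R2, H560R3 (starting files),
Y820 (helper820; tasks by helper692, helper71, helper514, helper515, helper484).
-/

set_option autoImplicit false

namespace Pool.Agent.Results.MP_7b7e48_nt.CommonPrimeDigitChanges

open Finset Filter

/-- The number of the primes `p ≤ N` for which all the numbers `a i - p` are primes. -/
def count {s : ℕ} (a : Fin s → ℕ) (N : ℕ) : ℕ :=
  ((Icc 1 N).filter (fun p : ℕ => p.Prime ∧ ∀ i, (a i - p).Prime)).card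

/-- The number `ν(p)` of the different residues modulo `p` among the numbers `0, a 1, ..., a s`. -/
def nu {s : ℕ} (a : Fin s → ℕ) (p : ℕ) : ℕ := (insert 0 (univ.image (fun i => a i % p))).card

/-- There is no local obstruction: for every prime `p`, the numbers `0, a 1, ..., a s` do not meet all
the residue classes modulo `p`. -/
def NoObstruction {s : ℕ} (a : Fin s → ℕ) : Prop := ∀ p : ℕ, p.Prime → nu a p < p

/-- The partial products `∏_{p ≤ z} (1 - ν(p) / p) / (1 - 1 / p) ^ (s + 1)` of the singular series. -/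
noncomputable def sing {s : ℕ} (a : Fin s → ℕ) (z : ℕ) : ℝ :=
  ∏ p ∈ (Icc 1 z).filter Nat.Prime, (1 - (nu a p : ℝ) / p) / (1 - 1 / (p : ℝ)) ^ (s + 1)

/-- There is no local obstruction, and the formula of Hardy and Littlewood holds with a relative error of at
most `ε`, for all `N` between `X / m` and `X` with `N < a i` for all `i`: the partial products of the singular
series converge to some `G > 0`, and `count a N` is `G N / log ^ (s + 1) N` up to the factor `1 ± ε`. -/
def Formula {s : ℕ} (ε : ℝ) (m X : ℕ) (a : Fin s → ℕ) : Prop :=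
  NoObstruction a ∧ ∃ G : ℝ, 0 < G ∧ Tendsto (sing a) atTop (nhds G) ∧
    ∀ N : ℕ, N ≤ X → X ≤ m * N → (∀ i, N < a i) →
      |(count a N : ℝ) - G * (N / Real.log N ^ (s + 1))| ≤ ε * (G * (N / Real.log N ^ (s + 1)))

/-- The digit number `j` (counted from the right, beginning with `0`) of `n` in base `b`. -/
def digit (b j n : ℕ) : ℕ := n / b ^ j % b

lemma nu_eq {s : ℕ} (a : Fin s → ℕ) (p : ℕ) (hp : 0 < p) :
    Pool.Agent.Y820.LF.nuF (Pool.Agent.Y820.LF.C1 (fun _ : Fin s => (-1 : ℤ))) (Pool.Agent.Y820.LF.H1 (fun i => (a i : ℤ))) p = nu a p := by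
  rw [Pool.Agent.Y820.LF.nuF_C1]
  unfold nu
  apply congrArg
  ext r
  rw [mem_filter, mem_range, mem_insert, mem_image]
  constructor
  · rintro ⟨hr, h | ⟨i, h⟩⟩
    · left
      rw [Int.natCast_dvd_natCast] at h
      exact Nat.eq_zero_of_dvd_of_lt h hr
    · right
      refine ⟨i, mem_univ i, ?_⟩
      have h1 : (a i : ℤ) ≡ (r : ℤ) [ZMOD (p : ℤ)] := by
        rw [Int.modEq_iff_dvd]
        have e : (r : ℤ) - (a i : ℤ) = -(-1 * (r : ℤ) + (a i : ℤ)) := by ring
        rw [e]
        exact (dvd_neg).2 h
      have h2 : a i ≡ r [MOD p] := (Int.natCast_modEq_iff).1 h1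
      unfold Nat.ModEq at h2
      rw [h2, Nat.mod_eq_of_lt hr]
  · rintro (h | ⟨i, _, h⟩)
    · subst h
      exact ⟨hp, Or.inl (by simp)⟩
    · refine ⟨by rw [← h]; exact Nat.mod_lt _ hp, Or.inr ⟨i, ?_⟩⟩
      have h2 : r ≡ a i [MOD p] := by
        rw [← h]
        exact Nat.mod_modEq _ _
      have h3 := (Nat.modEq_iff_dvd).1 h2
      have e : -1 * (r : ℤ) + (a i : ℤ) = (a i : ℤ) - (r : ℤ) := by ring
      rw [e]
      exact h3

lemma sing_eq {s : ℕ} (a : Fin s → ℕ) :
    Pool.Agent.Y820.LF.singF (Pool.Agent.Y820.LF.C1 (fun _ : Fin s => (-1 : ℤ))) (Pool.Agent.Y820.LF.H1 (fun i => (a i : ℤ))) = sing a := by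
  funext z
  unfold Pool.Agent.Y820.LF.singF sing
  apply prod_congr rfl
  intro p hp
  rw [nu_eq a p (mem_filter.1 hp).2.pos]

lemma adm_iff {s : ℕ} (a : Fin s → ℕ) :
    Pool.Agent.Y820.LF.AdmF (Pool.Agent.Y820.LF.C1 (fun _ : Fin s => (-1 : ℤ))) (Pool.Agent.Y820.LF.H1 (fun i => (a i : ℤ))) ↔ NoObstruction a := by
  unfold Pool.Agent.Y820.LF.AdmF NoObstruction
  constructor
  · intro h p hp
    rw [← nu_eq a p hp.pos]
    exact h p hp
  · intro h p hp
    rw [nu_eq a p hp.pos]
    exact h p hp

lemma count_eq {s : ℕ} (a : Fin s → ℕ) (N : ℕ) :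
    Pool.Agent.Y820.LF.cntF (Pool.Agent.Y820.LF.C1 (fun _ : Fin s => (-1 : ℤ))) (Pool.Agent.Y820.LF.H1 (fun i => (a i : ℤ))) N = count a N := by
  rw [Pool.Agent.Y820.LF.cntF_C1]
  unfold count
  apply congrArg
  apply filter_congr
  intro n _
  have h1 : ∀ i, ((-1) * (n : ℤ) + (a i : ℤ)).toNat = a i - n := by
    intro i
    omega
  simp only [h1]

lemma pos {s : ℕ} (a : Fin s → ℕ) (N : ℕ) (hN : 1 ≤ N) (h : ∀ i, N < a i) :
    Pool.Agent.Y820.LF.PosF (Pool.Agent.Y820.LF.C1 (fun _ : Fin s => (-1 : ℤ))) (Pool.Agent.Y820.LF.H1 (fun i => (a i : ℤ))) N := by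
  intro i
  refine Fin.cases ?_ (fun i => ?_) i
  · rw [Pool.Agent.Y820.LF.C1_zero, Pool.Agent.Y820.LF.H1_zero]
    constructor <;> omega
  · rw [Pool.Agent.Y820.LF.C1_succ, Pool.Agent.Y820.LF.H1_succ]
    have := h i
    constructor <;> omega

/-- for one number there is no local obstruction exactly if it is even -/
lemma one_even (n : ℕ) : NoObstruction (fun _ : Fin 1 => n) ↔ 2 ∣ n := by
  constructor
  · intro h
    have h1 := h 2 Nat.prime_two
    by_contra hcon
    have h2 : n % 2 = 1 := by omega
    unfold nu at h1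
    simp only [h2] at h1
    have h3 : (univ.image (fun _ : Fin 1 => 1) : Finset ℕ) = {1} := by
      ext x
      simp
    rw [h3] at h1
    revert h1
    decide
  · intro h p hp
    unfold nu
    have h3 : (univ.image (fun _ : Fin 1 => n % p) : Finset ℕ) = {n % p} := by
      ext x
      simp
    rw [h3]
    rcases hp.eq_two_or_odd with h2 | h2
    · subst h2
      have h4 : n % 2 = 0 := by omega
      rw [h4]
      decide
    · have h4 : (insert 0 {n % p} : Finset ℕ).card ≤ 2 := card_le_two
      have := hp.two_le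
      omega

/-- Part 1. For all `b ≥ 2`, `s ≥ 1`, `B`, `m ≥ 1` and `ε, ρ, θ > 0` there are `K` and `X₀` with the following
property. Let `X ≥ X₀` and let `T` be an ARBITRARY finite set of vectors `n` with `0 ≤ n i ≤ B X` and without a local
obstruction. There are sets `V 1, ..., V s` of at most `K` positions each, such that for all but at most `ρ |T|` of
the vectors `n` in `T` (in particular for all of them if `ρ |T| < 1`, for example for one given vector) there is a
vector `a` with the following properties: for all `i`, the digits of `a i` and `n i` in base `b` agree at all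
positions outside `V i` (so at most `K` digits of `n i` are changed), `|a i - n i| ≤ θ X`, and the primes `p` for
which all the numbers `a i - p` are primes satisfy the formula of Hardy and Littlewood with a relative error of at
most `ε`, for all `N` between `X / m` and `X` with `N < a i` for all `i`.

Part 2. For `s = 1` there is no local obstruction exactly if `n` is even. -/
theorem result :
    (∀ (b s B m : ℕ), 2 ≤ b → 1 ≤ s → 1 ≤ m → ∀ (ε ρ θ : ℝ), 0 < ε → 0 < ρ → 0 < θ →
      ∃ K X₀ : ℕ, ∀ X : ℕ, X₀ ≤ X → ∀ T : Finset (Fin s → ℕ), (∀ n ∈ T, NoObstruction n ∧ ∀ i, n i ≤ B * X) →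
        ∃ V : Fin s → Finset ℕ, (∀ i, (V i).card ≤ K) ∧ ∃ E ⊆ T, (E.card : ℝ) ≤ ρ * T.card ∧
          ∀ n ∈ T, n ∉ E → ∃ a : Fin s → ℕ,
            (∀ i, ∀ j, j ∉ V i → digit b j (a i) = digit b j (n i)) ∧ (∀ i, |(a i : ℝ) - n i| ≤ θ * X) ∧
              Formula ε m X a) ∧
    (∀ n : ℕ, NoObstruction (fun _ : Fin 1 => n) ↔ 2 ∣ n) := by
  refine ⟨fun b s B m hb hs hm ε ρ θ hε hρ hθ => ?_, one_even⟩
  obtain ⟨K, X₀, hmain⟩ := Pool.Agent.Y820.LF.dig1u b hb s hs 1 B m le_rfl hm ε ρ (min θ 1) hε hρ (lt_min hθ one_pos) (min_le_right _ _)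
  refine ⟨K, X₀ + 1, fun X hX T hT => ?_⟩
  obtain ⟨V, hV, E, hET, hEc, hE⟩ := hmain X (by omega) (Fin s → ℕ) T (fun _ _ => -1) (fun g => g)
    (fun _ _ _ => ⟨by norm_num, by norm_num⟩) (fun g hg => (hT g hg).2)
  refine ⟨V, hV, E, hET, hEc, fun h hh hhE => ?_⟩
  obtain ⟨a, ha1, ha2, ha3, G, hG0, hG1, hG2⟩ := hE h hh hhE ((adm_iff h).2 (hT h hh).1)
  refine ⟨a, ha1, fun i => (ha2 i).trans (mul_le_mul_of_nonneg_right (min_le_left _ _) (Nat.cast_nonneg _)), (adm_iff a).1 ha3, G, hG0, ?_, ?_⟩
  · rw [← sing_eq]
    exact hG1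
  · intro N hN1 hN2 hN3
    have hN0 : 1 ≤ N := by
      by_contra hcon
      have : N = 0 := by omega
      rw [this, mul_zero] at hN2
      omega
    have h1 := hG2 N hN1 hN2 (pos a N hN0 hN3)
    rw [count_eq] at h1
    exact h1

end Pool.Agent.Results.MP_7b7e48_nt.CommonPrimeDigitChanges
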