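import Pool.Agent.Y885.R3C
import Pool.Agent.H560R3.GB.Defs

/-!
# Every large even integer is a sum of two distinct primes and very few elements of an arbitrary set which
meets every interval `[x, l x]`

Definitions used (all in `Pool.Agent.H560R3.GB`): `C₂`: the twin prime constant
`∏_{p > 2} (1 - 1 / (p - 1) ^ 2)`; `sing n`: the singular series
`2 C₂ ∏_{p ∣ n, p > 2} (p - 1) / (p - 2)`; `g n`: the number of ordered representations of `n` as a
sum of two primes; `HL n = sing n * n / log ^ 2 n`: the prediction of Hardy and Littlewood for `g n`.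
-/

set_option autoImplicit false

namespace Pool.Agent.Results.MP_7b7e48_nt.ElementsOfAnySet

open Finset Pool.Agent.H560R3.GB

/-- `n` is a sum of two distinct primes, and the number of its representations as a sum of two primes
agrees with the prediction of Hardy and Littlewood up to a relative error of at most `ε`. -/
def Holds (ε : ℝ) (n : ℕ) : Prop :=
  |(g n : ℝ) - HL n| ≤ ε * HL n ∧ ∃ p q : ℕ, p.Prime ∧ q.Prime ∧ p ≠ q ∧ p + q = n

/-- For every `l ≥ 2` there is a constant `C` such that for all `B` and `ε > 0` there is an `N₀` with the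
following property. Let `A` be an arbitrary set of integers which contains an element of every interval
`[x, l x]`, `x ≥ 1` (the constants `C` and `N₀` do not depend on `A`). Then every even integer `N ≥ N₀` is the sum
of an integer `m` and of at most `C (log log N) ^ 2` distinct elements of `A`, where `m` is a sum of two distinct
primes and has the predicted number of representations as a sum of two primes, up to a relative error of at
most `ε`; moreover the elements of `A` can be chosen between `log ^ B N` and `N / log ^ B N`. -/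
theorem result (l : ℕ) (hl : 2 ≤ l) : ∃ C : ℝ, ∀ (B : ℕ) (ε : ℝ), 0 < ε → ∃ N₀ : ℕ, ∀ A : Set ℕ,
    (∀ x : ℕ, 1 ≤ x → ∃ a ∈ A, x ≤ a ∧ a ≤ l * x) → ∀ N : ℕ, N₀ ≤ N → Even N →
      ∃ S : Finset ℕ, (∀ a ∈ S, a ∈ A ∧ Real.log N ^ B ≤ a ∧ (a : ℝ) ≤ N / Real.log N ^ B) ∧
        (S.card : ℝ) ≤ C * Real.log (Real.log N) ^ 2 ∧ ∃ m : ℕ, m + ∑ a ∈ S, a = N ∧ Holds ε m :=
  Pool.Agent.Y885.las l hl

end Pool.Agent.Results.MP_7b7e48_nt.ElementsOfAnySet
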