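import Pool.Agent.Y885.RS4
import Pool.Agent.H560R3.GB.Defs

/-!
# Goldbach's conjecture for random sums with up to two fifths of the scales missing; prescribed digits

Definitions used (all in `Pool.Agent.H560R3.GB`): `C₂`: the twin prime constant
`∏_{p > 2} (1 - 1 / (p - 1) ^ 2)`; `sing n`: the singular series
`2 C₂ ∏_{p ∣ n, p > 2} (p - 1) / (p - 2)`; `g n`: the number of ordered representations of `n` as a
sum of two primes; `HL n = sing n * n / log ^ 2 n`: the prediction of Hardy and Littlewood for `g n`.
-/

set_option autoImplicit false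

namespace Pool.Agent.Results.MP_7b7e48_nt.RandomSums

open Finset Pool.Agent.H560R3.GB

/-- `n` is a sum of two distinct primes, and the number of its representations as a sum of two primes
agrees with the prediction of Hardy and Littlewood up to a relative error of at most `ε`. -/
def Holds (ε : ℝ) (n : ℕ) : Prop :=
  |(g n : ℝ) - HL n| ≤ ε * HL n ∧ ∃ p q : ℕ, p.Prime ∧ q.Prime ∧ p ≠ q ∧ p + q = n

/-- The set `J` of scales below `k` is rich: it contains more than three fifths of all the scales, more than one half
of the `m` lowest scales, and a positive proportion of the `m` highest scales (the last two conditions are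
void for `m ≤ D log k`). -/
structure Rich (δ : ℝ) (D k : ℕ) (J : Finset ℕ) : Prop where
  lt : ∀ j ∈ J, j < k
  all : (3 / 5 + δ) * k ≤ (J.card : ℝ)
  low : ∀ m ≤ k, (1 / 2 + δ) * m ≤ ((J.filter fun j => j < m).card : ℝ) + D * Real.log k
  high : ∀ m ≤ k, δ * m ≤ ((J.filter fun j => k - m ≤ j).card : ℝ) + D * Real.log k

open Classical in
/-- The probability of the event `E` if `x 0, ..., x (k - 1)` are independent random integers, where `x j` takes
its values in the finite set `s j`, and the value `x` with the probability `p j x`. -/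
noncomputable def Prob (k : ℕ) (s : ℕ → Finset ℤ) (p : ℕ → ℤ → ℝ) (E : (Fin k → ℤ) → Prop) : ℝ :=
  ∑ x ∈ Fintype.piFinset (fun j : Fin k => s j), if E x then ∏ j : Fin k, p j (x j) else 0

open Classical in
/-- Let `b ≥ 2`, `B ≥ 1`, `D`, `U`, `η > 0`, `δ > 0` and `ε > 0` be fixed, let `k` be large, and let `J` be an arbitrary
rich set of scales below `k`. (1) Let `x 0, ..., x (k - 1)` be arbitrary independent random integers with
`|x j| ≤ B b ^ j` such that, for all `j` in `J`, no interval of the length `b ^ j / B` contains `x j` with a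
probability larger than `1 - η` (nothing is assumed for the other `j`: these `x j` may be constants). Let `c` be an
arbitrary integer with `|c| ≤ B b ^ k`. Then, with a probability of at least `1 - 1 / k ^ U`, the integer
`n = c + x 0 + ... + x (k - 1)` has the following property: if `n` is positive and even, then `n` is a sum of two
distinct primes, and the number of representations of `n` as a sum of two primes agrees with the prediction of
Hardy and Littlewood up to a relative error of at most `ε`. (2) Let `A 0, ..., A (k - 1)` be arbitrary nonempty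
sets of digits in base `b`, such that `A j` has at least two elements if `j` is in `J` (the other digits may be
prescribed). Then the same property holds for all the integers `n < b ^ k` whose digit at the place `j` belongs to
`A j` for all `j < k`, with at most `(#A 0 ⋯ #A (k - 1)) / k ^ U` exceptions. -/
theorem result (b B D U : ℕ) (hb : 2 ≤ b) (hB : 1 ≤ B) (η δ ε : ℝ) (hη : 0 < η) (hδ : 0 < δ) (hε : 0 < ε) :
    ∃ k₀ : ℕ, ∀ k : ℕ, k₀ ≤ k → ∀ J : Finset ℕ, Rich δ D k J →
      (∀ (s : ℕ → Finset ℤ) (p : ℕ → ℤ → ℝ),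
        (∀ j < k, (∀ x ∈ s j, 0 ≤ p j x ∧ |x| ≤ (B : ℤ) * (b : ℤ) ^ j) ∧ ∑ x ∈ s j, p j x = 1) →
        (∀ j ∈ J, ∀ y : ℤ, ∑ x ∈ (s j).filter (fun x => y ≤ x ∧ (B : ℤ) * (x - y) ≤ (b : ℤ) ^ j), p j x ≤ 1 - η) →
        ∀ c : ℤ, |c| ≤ (B : ℤ) * (b : ℤ) ^ k →
          Prob k s p (fun x => 0 < c + ∑ j, x j ∧ Even (c + ∑ j, x j) ∧ ¬ Holds ε (c + ∑ j, x j).toNat) ≤
            1 / (k : ℝ) ^ U) ∧
      (∀ A : ℕ → Finset ℕ, (∀ j < k, (A j).Nonempty ∧ ∀ a ∈ A j, a < b) → (∀ j ∈ J, 2 ≤ (A j).card) →
        (((range (b ^ k)).filter fun n =>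
            (∀ j < k, n / b ^ j % b ∈ A j) ∧ 0 < n ∧ Even n ∧ ¬ Holds ε n).card : ℝ) ≤
          (∏ j ∈ range k, ((A j).card : ℝ)) / (k : ℝ) ^ U) := by
  obtain ⟨k₁, h1⟩ := Pool.Agent.Y885.rand_sums b hb B D U hB η δ ε hη hδ hε
  obtain ⟨k₂, h2⟩ := Pool.Agent.Y885.rand_sums b hb b D U (by omega) (1 / 2) δ ε (by norm_num) hδ hε
  refine ⟨k₁ + k₂, fun k hk J hJ => ⟨fun s p hs hp c hc => ?_, fun A hA hAJ => ?_⟩⟩
  · have h3 := h1 k (by omega) J s p c hJ.lt hs (fun j hj y => by rw [← sum_filter]; exact hp j hj y) hJ.low hJ.high hJ.all hc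
    refine le_trans (le_of_eq ?_) h3
    unfold Prob
    apply sum_congr rfl
    intro x _
    simp only [even_iff_two_dvd, Holds]
  · have h3 := Pool.Agent.Y885.rand_digits b hb U k (Holds ε) J
      (fun s p c hs hp hc => by
        have h4 := h2 k (by omega) J s p c hJ.lt hs hp hJ.low hJ.high hJ.all hc
        refine le_trans (le_of_eq ?_) h4
        apply sum_congr rfl
        intro x _
        split_ifs with h5 h6 h6
        · rfl
        · exact absurd h5 h6
        · exact absurd h6 h5
        · rfl) A hA hAJ
    simp only [even_iff_two_dvd]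
    exact h3

end Pool.Agent.Results.MP_7b7e48_nt.RandomSums
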